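import Pool.Agent.H89.SISFT.Base
import Pool.Agent.H89.SISFT.Nu

set_option linter.style.longLine false

/-! Strongly irreducible shifts of finite type of bounded relational width. -/

namespace Pool.Agent.Results.MP_cb0c3a_an.BoundedWidth

open Pool.Agent.H89.SISFT

/-- The constraint `P` has relational width `(k, k+1)`: a finite system of constraints, each of
them saying that the values at the variables `c u` form a pattern in `P`, has a solution as soon as
there is a nonempty family of partial maps, closed under restriction, with extension from `k`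
variables to any further variable, all of whose members satisfy the constraints on their domain. -/
def HasWidth {d n : ℕ} (F : Finset (Fin d → ℤ)) (P : Set (F → Fin n)) (k : ℕ) : Prop :=
  ∀ (V : Type) [Fintype V] [DecidableEq V] (C : Set (F → V))
    (H : Finset V → (V → Fin n) → Prop),
    (∃ h, H ∅ h) →
    (∀ S h h', H S h → (∀ s ∈ S, h s = h' s) → H S h') →
    (∀ S S' h, H S h → S' ⊆ S → H S' h) →
    (∀ S h, S.card ≤ k → H S h → ∀ y, ∃ a, H (insert y S) (Function.update h y a)) →
    (∀ S h, H S h → ∀ c ∈ C, (∀ u, c u ∈ S) → (fun u => h (c u)) ∈ P) →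
    ∃ g : V → Fin n, ∀ c ∈ C, (fun u => g (c u)) ∈ P

/-- a rule with a near unanimity polymorphism of arity `m` has width `max |F| (m - 1)` -/
theorem hasWidth_of_nu {d n : ℕ} (F : Finset (Fin d → ℤ)) (P : Set (F → Fin n)) (m : ℕ)
    (hm : 3 ≤ m) (f : (Fin m → Fin n) → Fin n) (hf : IsNU m f)
    (hP : ∀ p : Fin m → F → Fin n, (∀ i, p i ∈ P) → (fun u => f fun i => p i u) ∈ P) :
    HasWidth F P (max F.card (m - 1)) := by
  intro V _ _ C H hne hcongr hmono hext hcon
  set k := max F.card (m - 1) with hk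
  have hmk : m ≤ k + 1 := by
    have := le_max_right F.card (m - 1)
    omega
  have hF : IsNU (k + 1) (extF hmk f) := hf.extF (by omega) hmk
  -- closure of the family under the operation
  let H' : Finset V → (V → Fin n) → Prop := fun S h =>
    ∀ Q : (V → Fin n) → Prop, (∀ h, H S h → Q h) →
      (∀ h h', Q h → (∀ s ∈ S, h s = h' s) → Q h') →
      (∀ h : Fin (k + 1) → V → Fin n, (∀ i, Q (h i)) → Q fun s => extF hmk f fun i => h i s) → Q h
  have hin : ∀ S h, H S h → H' S h := fun S h hh Q h1 _ _ => h1 h hh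
  have hcongr' : ∀ S h h', H' S h → (∀ s ∈ S, h s = h' s) → H' S h' :=
    fun S h h' hh e Q h1 h2 h3 => h2 h h' (hh Q h1 h2 h3) e
  have hclo' : ∀ S (h : Fin (k + 1) → V → Fin n), (∀ i, H' S (h i)) →
      H' S fun s => extF hmk f fun i => h i s :=
    fun S h hh Q h1 h2 h3 => h3 h fun i => hh i Q h1 h2 h3
  have hmono' : ∀ S S' h, H' S h → S' ⊆ S → H' S' h := by
    intro S S' h hh hS
    refine hh (H' S') (fun h h0 => hin _ _ (hmono _ _ _ h0 hS)) (fun h h' h0 e => ?_)
      (fun h h0 => hclo' _ _ h0)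
    exact hcongr' _ _ _ h0 fun s hs => e s (hS hs)
  have hext' : ∀ S h, S.card ≤ k → H' S h → ∀ y, ∃ a, H' (insert y S) (Function.update h y a) := by
    intro S h hS hh y
    by_cases hy : y ∈ S
    · exact ⟨h y, by rwa [Function.update_eq_self, Finset.insert_eq_of_mem hy]⟩
    refine hh (fun h => ∃ a, H' (insert y S) (Function.update h y a)) ?_ ?_ ?_
    · intro h h0
      obtain ⟨a, ha⟩ := hext S h hS h0 y
      exact ⟨a, hin _ _ ha⟩
    · rintro h h' ⟨a, ha⟩ e
      refine ⟨a, hcongr' _ _ _ ha fun s hs => ?_⟩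
      by_cases hsy : s = y
      · subst hsy
        simp
      · rw [Function.update_of_ne hsy, Function.update_of_ne hsy]
        exact e s ((Finset.mem_insert.1 hs).resolve_left hsy)
    · intro h h0
      choose a ha using h0
      refine ⟨extF hmk f a, hcongr' _ _ _ (hclo' _ _ ha) fun s _ => ?_⟩
      by_cases hsy : s = y
      · subst hsy
        simp
      · simp only [Function.update_of_ne hsy]
  have hcon' : ∀ S h, H' S h → ∀ c ∈ C, (∀ u, c u ∈ S) → (fun u => h (c u)) ∈ P := by
    intro S h hh c hc hcS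
    refine hh (fun h => (fun u => h (c u)) ∈ P) (fun h h0 => hcon S h h0 c hc hcS) ?_ ?_
    · intro h h' h0 e
      have : (fun u => h' (c u)) = fun u => h (c u) := by
        funext u
        exact (e _ (hcS u)).symm
      show (fun u => h' (c u)) ∈ P
      rw [this]
      exact h0
    · intro h h0
      exact hP (fun i u => h (Fin.castLE hmk i) (c u)) fun i => h0 _
  obtain ⟨h0, hh0⟩ := hne
  obtain ⟨g, -, hg⟩ := nu_total (H := H') hF hcongr' hext' hmono' hclo' ∅ h0 (by
    intro S hS _
    rw [Finset.subset_empty.1 hS]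
    exact hin _ _ hh0)
  refine ⟨g, fun c hc => hcon' (Finset.univ.image c) g (hg _ (Finset.subset_univ _)
    (Finset.card_image_le.trans ?_)) c hc fun u => Finset.mem_image_of_mem _ (Finset.mem_univ _)⟩
  rw [Finset.card_univ, Fintype.card_coe]
  exact le_max_left _ _

theorem result (d n : ℕ) (F : Finset (Fin d → ℤ)) (P : Set (F → Fin n)) (R k : ℕ)
    (hne : ∃ x, InX F P x) (hSI : SI F P R) (hW : HasWidth F P k)
    (N : ℕ) (hN : (k + 2) * (R + 1) ≤ N) :
    ∃ y : (Fin d → ℤ) → Fin n, InX F P y ∧ ∀ u v : Fin d → ℤ, y (u + (N : ℤ) • v) = y u := by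
  classical
  have hN0 : 0 < N := by
    have : 0 < (k + 2) * (R + 1) := by positivity
    omega
  have : NeZero N := ⟨hN0.ne'⟩
  obtain ⟨g, hg⟩ := hW (Fin d → ZMod N) {c | ∃ v : Fin d → ℤ, c = fun u => red N (v + u.1)}
    (Hf F P N) (by
      obtain ⟨x, hx⟩ := hne
      exact ⟨fun _ => x 0, x, hx, fun u hu => absurd hu (by simp)⟩)
    (fun S h h' hh e => hh.congr e) (fun S S' h hh e => hh.mono e)
    (fun S h hS hh y => hh.extend hSI hne hN hS y) (by
      rintro S h ⟨x, hx, hxp⟩ c ⟨v, rfl⟩ hc
      convert hx v using 2 with u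
      exact (hxp (v + u.1) (hc u)).symm)
  refine ⟨fun u => g (red N u), fun v => hg _ ⟨v, rfl⟩, fun u v => ?_⟩
  have : red N (u + (N : ℤ) • v) = red N u := by
    funext i
    simp [red]
  simp only [this]

end Pool.Agent.Results.MP_cb0c3a_an.BoundedWidth
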