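import Pool.Agent.H89.SISFT.Base
import Pool.Agent.H89.SISFT.Nu

set_option linter.style.longLine false

/-! Strongly irreducible shifts of finite type with a near unanimity operation. -/

namespace Pool.Agent.Results.MP_cb0c3a_an.NearUnanimity

open Pool.Agent.H89.SISFT

theorem result (d n : ℕ) (F : Finset (Fin d → ℤ)) (P : Set (F → Fin n)) (R : ℕ)
    (hSI : SI F P R) (m : ℕ) (hm : 3 ≤ m) (f : (Fin m → Fin n) → Fin n) (hf : IsNU m f)
    (hX : ∀ x : Fin m → (Fin d → ℤ) → Fin n, (∀ i, InX F P (x i)) →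
      InX F P (fun u => f (fun i => x i u)))
    (L N : ℕ) (hN : (max F.card (m - 1) + 2) * (R + 1) ≤ N) (hL : L + R ≤ N)
    (x : (Fin d → ℤ) → Fin n) (hx : InX F P x) :
    ∃ y : (Fin d → ℤ) → Fin n, InX F P y ∧
      (∀ u v : Fin d → ℤ, y (u + (N : ℤ) • v) = y u) ∧
      (∀ u : Fin d → ℤ, (∀ i, 0 ≤ u i ∧ u i < L) → y u = x u) := by
  classical
  set k := max F.card (m - 1) with hk
  have hN0 : 0 < N := by
    have : 0 < (k + 2) * (R + 1) := by positivity
    omega
  have : NeZero N := ⟨hN0.ne'⟩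
  have hmk : m ≤ k + 1 := by
    have := le_max_right F.card (m - 1)
    omega
  have hF : IsNU (k + 1) (extF hmk f) := hf.extF (by omega) hmk
  -- the family of partial solutions
  have clo : ∀ S (h : Fin (k + 1) → (Fin d → ZMod N) → Fin n), (∀ i, Hf F P N S (h i)) →
      Hf F P N S fun s => extF hmk f fun i => h i s := by
    intro S h hh
    choose z hz hzp using hh
    refine ⟨fun u => f fun i => z (Fin.castLE hmk i) u, hX _ fun i => hz _, fun u hu => ?_⟩
    show f (fun i => z (Fin.castLE hmk i) u) = f fun i => h (Fin.castLE hmk i) (red N u)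
    congr 1
    funext i
    exact hzp _ u hu
  -- the box
  let B : Finset (Fin d → ℤ) := Fintype.piFinset fun _ : Fin d => Finset.Ico (0 : ℤ) L
  have hB : ∀ u : Fin d → ℤ, u ∈ B ↔ ∀ i, 0 ≤ u i ∧ u i < L := by
    intro u
    simp [B, Fintype.mem_piFinset]
  have hinj : ∀ u ∈ B, ∀ v ∈ B, red N u = red N v → u = v := by
    intro u hu v hv h
    funext i
    have h1 : (u i : ZMod N) = (v i : ZMod N) := congrFun h i
    rw [ZMod.intCast_eq_intCast_iff_dvd_sub] at h1
    have h2 := (hB u).1 hu i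
    have h3 := (hB v).1 hv i
    have h4 : (L : ℤ) + R ≤ N := by exact_mod_cast hL
    have h5 := Int.eq_zero_of_abs_lt_dvd h1 (by rw [abs_lt]; omega)
    omega
  let g : (Fin d → ZMod N) → Fin n := fun s =>
    if h : ∃ u ∈ B, red N u = s then x h.choose else x 0
  have hg : ∀ u : Fin d → ℤ, (∀ i, 0 ≤ u i ∧ u i < L) → g (red N u) = x u := by
    intro u hu
    have h : ∃ v ∈ B, red N v = red N u := ⟨u, (hB u).2 hu, rfl⟩
    show (if h : ∃ v ∈ B, red N v = red N u then x h.choose else x 0) = x u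
    rw [dif_pos h]
    rw [hinj _ h.choose_spec.1 u ((hB u).2 hu) h.choose_spec.2]
  have hloc : Loc (Hf F P N) k (B.image (red N)) g := by
    intro S hS _
    refine Hf.of_box hSI hx hL hg fun s hs => ?_
    obtain ⟨u, hu, rfl⟩ := Finset.mem_image.1 (hS hs)
    exact ⟨u, (hB u).1 hu, rfl⟩
  obtain ⟨g', h1, h2⟩ := nu_total (H := Hf F P N) hF (fun S h h' hh e => hh.congr e)
    (fun S h hS hh y => hh.extend hSI ⟨x, hx⟩ hN hS y) (fun S S' h hh e => hh.mono e) clo
    (B.image (red N)) g hloc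
  refine ⟨fun u => g' (red N u), fun v => ?_, fun u v => ?_, fun u hu => ?_⟩
  · obtain ⟨z, hz, hzp⟩ := h2 ((Finset.univ : Finset F).image fun u => red N (v + u.1))
      (Finset.subset_univ _) (Finset.card_image_le.trans (by
        rw [Finset.card_univ, Fintype.card_coe]
        exact le_max_left _ _))
    have h3 := hz v
    convert h3 using 2 with u
    exact (hzp (v + u.1) (Finset.mem_image.2 ⟨u, Finset.mem_univ _, rfl⟩)).symm
  · have : red N (u + (N : ℤ) • v) = red N u := by
      funext i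
      simp [red]
    simp only [this]
  · rw [← hg u hu]
    exact h1 _ (Finset.mem_image.2 ⟨u, (hB u).2 hu, rfl⟩)

end Pool.Agent.Results.MP_cb0c3a_an.NearUnanimity
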