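import Pool.Agent.H62.TP.Top

/-! Subshifts on `ℤ^d` closed under a weak near unanimity operation contain periodic points. -/

namespace Pool.Agent.Results.MP_cb0c3a_an.WnuPeriodic

/-- Let `A` be finite, `d ≥ 0`, `n ≥ 2` and let `w : Aⁿ → A` be a weak near unanimity operation:
for all `x, y` the value `w (x, ..., x, y, x, ..., x)` does not depend on the place of `y`
(`w` need not be idempotent). Every nonempty closed shift-invariant `X ⊆ A^(ℤ^d)` which is
closed under the cellwise application of `w` contains an `x` with `x (u + N v) = x u` for some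
`N > 0` and all `u, v`. In particular this holds for every nonempty shift of finite type which
is closed under `w`. -/
theorem result (A : Type) [Finite A] [TopologicalSpace A] [DiscreteTopology A]
    (n : ℕ) (hn : 2 ≤ n) (w : (Fin n → A) → A)
    (hw : ∀ (i j : Fin n) (x y : A), w (Function.update (fun _ => x) i y) =
      w (Function.update (fun _ => x) j y)) (d : ℕ)
    (X : Set ((Fin d → ℤ) → A)) (hne : X.Nonempty) (hcl : IsClosed X)
    (hinv : ∀ v : Fin d → ℤ, ∀ x ∈ X, (fun u => x (u + v)) ∈ X)
    (hX : ∀ x : Fin n → (Fin d → ℤ) → A, (∀ i, x i ∈ X) → (fun u => w fun i => x i u) ∈ X) :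
    ∃ N : ℕ, 0 < N ∧ ∃ x ∈ X, ∀ u v : Fin d → ℤ, x (u + N • v) = x u :=
  Pool.Agent.H62.TP.exists_periodic_wnu hn w hw X hne hcl hinv hX

end Pool.Agent.Results.MP_cb0c3a_an.WnuPeriodic
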